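import Pool.Agent.Q270.SR.Box

/-!
# The joint discrepancy of good families is of the order of the square root
-/

set_option autoImplicit false

namespace Pool.Agent.Q270.SR

open Finset Real MeasureTheory Filter Topology
open Pool.Agent.Y933.KD (wd wd_lt WS cen cen_sum WS_cen mn measurable_WS)
open Pool.Agent.Y951.TU (unif unif_prob real_unif Psi measurable_Psi mix tw tw_lt wd_Psi prod_pos'
  two_le_prod mnT FM FM_mix mn_FM words mem_words)
open Pool.Agent.Q270.PX (SXS SXS_prob)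
open Pool.Agent.Q270.AA (GoodB TW_B)

variable {r : ℕ} {ι : Type*}

open Classical in
/-- the joint discrepancy in one tuple of bases -/
theorem disc_one_B {κ Am : ℝ} {S : ℕ → Set (Measure (Fin r → ℝ))}
    (hS : ∀ M, 1 ≤ M → ∀ P ∈ S M, IsProbabilityMeasure P) (hG : GoodB r S κ Am) (hr : 1 ≤ r)
    {b : Fin r → ℕ} (hb : ∀ j, 2 ≤ b j) (A T ε : ℝ) (hε : 0 < ε)
    {B1 : ℝ} (hB1' : 2 ≤ B1) (hbB : ∀ j, (b j : ℝ) ≤ B1) (hAm : (|A| + |A + 1|) * log B1 ≤ Am) :
    ∃ M₀ : ℕ, ∀ M : ℕ, M₀ ≤ M → ∀ (I : Finset ι) (x : ι → Fin r → ℝ),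
      I.Nonempty → unif I x ∈ S M →
      ((I.filter (fun m => ¬ ∀ (s : Fin r → ℕ) (N : ℕ), (∀ j, (M : ℝ) ^ κ ≤ (b j : ℝ) ^ s j) →
        (∀ j, (s j : ℝ) + N ≤ A * log M) → Disc b s N (x m) ((log M) ^ (1 / 2 + ε)))).card : ℝ) ≤
        I.card * (log M) ^ (-T) := by
  have hb1 : ∀ j, 1 ≤ b j := fun j => by have := hb j; omega
  have hq2 : 2 ≤ ∏ j, b j := two_le_prod hr hb
  have hq1 : 1 ≤ ∏ j, b j := prod_pos' hb1
  have hB1p : 0 < B1 := by linarith
  have hlog2 : 0 < log 2 := Real.log_pos one_lt_two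
  -- constants
  set C1 : ℝ := r * (log B1 / log 2) with hC1
  have hC10 : 0 ≤ C1 := by
    have : 0 ≤ log B1 := Real.log_nonneg (by linarith)
    positivity
  set C0 : ℝ := 2 * C1 with hC0
  set T1 : ℝ := T + (r + 2) + 2 * C0 with hT1
  obtain ⟨M0, hM0⟩ := sqrt_TW (b := ∏ j, b j) hq2 (A := A) (SXS_prob hS b A (A + 1))
    (fun k => TW_B hS hG hb1 A (A + 1) (by linarith : (1 : ℝ) ≤ B1) hbB hAm k) C0 T1 (ε / 2)
    (by positivity)
  set A1 : ℝ := |A| + 1 with hA1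
  have hA10 : 1 ≤ A1 := by have := abs_nonneg A; linarith
  have hlog : Tendsto (fun M : ℕ => log (M : ℝ)) atTop atTop :=
    Real.tendsto_log_atTop.comp tendsto_natCast_atTop_atTop
  have hev : ∀ᶠ Λ : ℝ in atTop, 2 ≤ Λ ∧ (2 * A1) ^ (r + 1) ≤ Λ ∧ log (2 * Λ) / log 2 ≤ Λ ∧
      1 + r * |A| ≤ Λ ^ (ε / 2) := by
    have e1 : ∀ᶠ Λ : ℝ in atTop, log (2 * Λ) / log 2 ≤ Λ := by
      have h1 := (isLittleO_log_id_atTop).def (show (0 : ℝ) < log 2 / 4 by positivity)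
      have h2 : Tendsto (fun Λ : ℝ => 2 * Λ) atTop atTop := tendsto_id.const_mul_atTop two_pos
      filter_upwards [h2.eventually h1, eventually_ge_atTop 1] with Λ h3 h4
      have h5 : 0 ≤ log (2 * Λ) := Real.log_nonneg (by linarith)
      rw [Real.norm_of_nonneg h5, id_eq, Real.norm_of_nonneg (by linarith)] at h3
      rw [div_le_iff₀ hlog2]
      nlinarith
    filter_upwards [eventually_ge_atTop 2, eventually_ge_atTop ((2 * A1) ^ (r + 1)), e1,
      (tendsto_rpow_atTop (show 0 < ε / 2 by positivity)).eventually_ge_atTop (1 + r * |A|)]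
      with Λ h1 h2 h3 h4
    exact ⟨h1, h2, h3, h4⟩
  obtain ⟨M1, hM1⟩ := eventually_atTop.1 (hlog.eventually hev)
  refine ⟨max (max M0 M1) 1, fun M hM I x hI hx => ?_⟩
  have hMM0 : M0 ≤ M := le_of_max_le_left (le_of_max_le_left hM)
  have hMM1 : M1 ≤ M := le_of_max_le_right (le_of_max_le_left hM)
  have hM1' : 1 ≤ M := le_of_max_le_right hM
  obtain ⟨hΛ2, hΛA, hΛl, hΛε⟩ := hM1 M hMM1
  set Λ : ℝ := log (M : ℝ) with hΛ
  have hΛ0 : 0 < Λ := by linarith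
  have hΛ1 : 1 ≤ Λ := by linarith
  have hI0 : (0 : ℝ) < I.card := by exact_mod_cast hI.card_pos
  -- the length of the words
  set w : ℕ := ⌈log Λ / log 2⌉₊ with hw
  have hlΛ : 0 < log Λ := Real.log_pos (by linarith)
  have hw1 : 1 ≤ w := by
    rw [hw, Nat.one_le_ceil_iff]
    positivity
  have hw2 : (w : ℝ) ≤ log (2 * Λ) / log 2 := by
    have h1 := Nat.ceil_lt_add_one (show 0 ≤ log Λ / log 2 by positivity)
    rw [Real.log_mul two_ne_zero hΛ0.ne', add_div, div_self hlog2.ne']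
    linarith
  have hwΛ : (w : ℝ) ≤ Λ := hw2.trans hΛl
  have hw3 : Λ ≤ (2 : ℝ) ^ w := by
    have h1 : log Λ / log 2 ≤ w := Nat.le_ceil _
    rw [div_le_iff₀ hlog2] at h1
    rw [← Real.log_le_log_iff hΛ0 (by positivity), Real.log_pow]
    exact h1
  have hqw : (((∏ j, b j : ℕ) : ℝ)) ^ w ≤ Λ ^ C0 := by
    have h1 : ((∏ j, b j : ℕ) : ℝ) ≤ B1 ^ r := by
      push_cast
      calc ∏ j, (b j : ℝ) ≤ ∏ _j : Fin r, B1 :=
            prod_le_prod (fun j _ => Nat.cast_nonneg _) fun j _ => hbB j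
        _ = B1 ^ r := by rw [prod_const, card_univ, Fintype.card_fin]
    have h2 : log ((((∏ j, b j : ℕ) : ℝ)) ^ w) ≤ log (Λ ^ C0) := by
      rw [Real.log_pow, Real.log_rpow hΛ0]
      have hq0 : (0 : ℝ) < ((∏ j, b j : ℕ) : ℝ) := by exact_mod_cast hq1
      have h3 : log ((∏ j, b j : ℕ) : ℝ) ≤ r * log B1 := by
        rw [← Real.log_pow]
        exact Real.log_le_log hq0 h1
      have h4 : log (2 * Λ) ≤ 2 * log Λ := by
        rw [Real.log_mul two_ne_zero hΛ0.ne']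
        have := Real.log_le_log two_pos hΛ2
        linarith
      have h5 : 0 ≤ log B1 := Real.log_nonneg (by linarith)
      have h6 : 0 ≤ log ((∏ j, b j : ℕ) : ℝ) :=
        Real.log_nonneg (by exact_mod_cast hq1)
      calc (w : ℝ) * log ((∏ j, b j : ℕ) : ℝ) ≤ (log (2 * Λ) / log 2) * (r * log B1) :=
            mul_le_mul hw2 h3 h6 ((Nat.cast_nonneg w).trans hw2)
        _ ≤ (2 * log Λ / log 2) * (r * log B1) := by gcongr
        _ = C0 * log Λ := by rw [hC0, hC1]; ring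
    exact (Real.log_le_log_iff (by
      have : (0 : ℝ) < ((∏ j, b j : ℕ) : ℝ) := by exact_mod_cast hq1
      positivity) (by positivity)).1 h2
  set J : ℕ := ⌈(A + 1) * Λ⌉₊ with hJ
  have hJ1 : (A + 1) * Λ ≤ J := Nat.le_ceil _
  -- the parameters of the events
  set R : Finset (Fin r → ℕ) := (Fintype.piFinset fun _ : Fin r => range (⌊|A| * Λ⌋₊ + 1)).filter
    (fun s => (∀ j, (s j : ℝ) ≤ A * Λ) ∧ ∀ j, (M : ℝ) ^ κ ≤ (b j : ℝ) ^ s j) with hR
  set RN : Finset ℕ := (range (⌊|A| * Λ⌋₊ + 1)).filter (fun N => (N : ℝ) ≤ A * Λ) with hRN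
  set Rc : Finset (Fin r → ℕ) := Fintype.piFinset fun j => range (b j ^ w + 1) with hRc
  set U : (Fin r → ℕ) → ℕ → Set ℝ := fun c N =>
    {y | Λ ^ (1 / 2 + ε / 2) < |WS (∏ j, b j) w (cen (∏ j, b j) w (FM b w (bx c))) 0 N y|} with hU
  have hUm : ∀ c N, MeasurableSet (U c N) := fun c N =>
    measurableSet_lt measurable_const (measurable_WS _ _ _ _ _).abs
  have hone : ∀ s ∈ R, ∀ N ∈ RN, ∀ c ∈ Rc,
      ((I.filter (fun m => Psi b J s (x m) ∈ U c N)).card : ℝ) ≤ I.card * Λ ^ (-T1) := by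
    intro s hs N hN c hc
    rw [hR, mem_filter] at hs
    rw [hRN, mem_filter] at hN
    rw [hRc, Fintype.mem_piFinset] at hc
    have hcb : ∀ j, c j ≤ b j ^ w := fun j => by
      have := mem_range.1 (hc j)
      omega
    have h1 := hM0 M hMM0 ((unif I x).map (Psi b J s))
      ⟨unif I x, hx, s, J, hs.2.1, hs.2.2, hJ1, rfl⟩ w hw1 hqw
      (cen (∏ j, b j) w (FM b w (bx c))) (cen_bx_le hb1 hcb) (cen_sum hq1 _) 0 N (by
        push_cast
        rw [zero_add]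
        exact hN.2)
    rw [map_measureReal_apply (measurable_Psi b J s) (hUm c N)] at h1
    rw [real_unif _ _ (measurable_Psi b J s (hUm c N))] at h1
    rw [div_le_iff₀ hI0, mul_comm] at h1
    exact h1
  have hfl : ((⌊|A| * Λ⌋₊ : ℕ) : ℝ) + 1 ≤ A1 * Λ := by
    have h2 : ((⌊|A| * Λ⌋₊ : ℕ) : ℝ) ≤ |A| * Λ := Nat.floor_le (by positivity)
    rw [hA1]
    linarith
  have hRcard : (R.card : ℝ) ≤ (A1 * Λ) ^ r := by
    have h1 : R.card ≤ (⌊|A| * Λ⌋₊ + 1) ^ r := by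
      refine (card_filter_le _ _).trans (le_of_eq ?_)
      rw [Fintype.card_piFinset]
      simp
    calc (R.card : ℝ) ≤ (((⌊|A| * Λ⌋₊ + 1) ^ r : ℕ) : ℝ) := by exact_mod_cast h1
      _ = ((⌊|A| * Λ⌋₊ : ℝ) + 1) ^ r := by push_cast; rfl
      _ ≤ _ := by gcongr
  have hRNcard : (RN.card : ℝ) ≤ A1 * Λ := by
    have h1 : RN.card ≤ ⌊|A| * Λ⌋₊ + 1 := by
      refine (card_filter_le _ _).trans (le_of_eq ?_)
      rw [card_range]
    calc (RN.card : ℝ) ≤ ((⌊|A| * Λ⌋₊ + 1 : ℕ) : ℝ) := by exact_mod_cast h1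
      _ = (⌊|A| * Λ⌋₊ : ℝ) + 1 := by push_cast; rfl
      _ ≤ _ := hfl
  have hRccard : (Rc.card : ℝ) ≤ Λ ^ (2 * C0) := by
    rw [hRc, Fintype.card_piFinset]
    simp only [card_range]
    have h1 : ∀ j, b j ^ w + 1 ≤ (b j ^ w) ^ 2 := by
      intro j
      have h2 : 2 ≤ b j ^ w := (hb j).trans (Nat.le_self_pow (by omega) _)
      nlinarith
    have h2 : (∏ j, (b j ^ w + 1)) ≤ ((∏ j, b j) ^ w) ^ 2 := by
      rw [← prod_pow, ← prod_pow]
      exact prod_le_prod' fun j _ => h1 j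
    calc (((∏ j, (b j ^ w + 1) : ℕ)) : ℝ) ≤ (((((∏ j, b j) ^ w) ^ 2 : ℕ)) : ℝ) := by
          exact_mod_cast h2
      _ = ((((∏ j, b j : ℕ) : ℝ)) ^ w) ^ 2 := by push_cast; ring
      _ ≤ (Λ ^ C0) ^ 2 := by gcongr
      _ = Λ ^ (2 * C0) := by
          rw [← Real.rpow_natCast (Λ ^ C0), ← Real.rpow_mul hΛ0.le]
          congr 1
          push_cast
          ring
  have hsub : I.filter (fun m => ¬ ∀ (s : Fin r → ℕ) (N : ℕ),
        (∀ j, (M : ℝ) ^ κ ≤ (b j : ℝ) ^ s j) →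
        (∀ j, (s j : ℝ) + N ≤ A * Λ) → Disc b s N (x m) (Λ ^ (1 / 2 + ε))) ⊆
      R.biUnion fun s => RN.biUnion fun N => Rc.biUnion fun c =>
        I.filter (fun m => Psi b J s (x m) ∈ U c N) := by
    intro m hm
    rw [mem_filter] at hm
    obtain ⟨hmb, hm⟩ := hm
    by_contra hcon
    apply hm
    intro s N hsκ hsN
    have hsA : ∀ j, (s j : ℝ) ≤ A * Λ := fun j => by
      have h1 := hsN j
      have h2 : (0 : ℝ) ≤ N := Nat.cast_nonneg N
      linarith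
    have hsT : s ∈ R := by
      rw [hR, mem_filter, Fintype.mem_piFinset]
      refine ⟨fun j => ?_, hsA, hsκ⟩
      rw [mem_range, Nat.lt_succ_iff]
      apply Nat.le_floor
      refine (hsA j).trans ?_
      gcongr
      exact le_abs_self A
    have hNA : (N : ℝ) ≤ A * Λ := by
      have h1 := hsN ⟨0, hr⟩
      have h2 : (0 : ℝ) ≤ s ⟨0, hr⟩ := Nat.cast_nonneg _
      linarith
    have hNT : N ∈ RN := by
      rw [hRN, mem_filter]
      refine ⟨?_, hNA⟩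
      rw [mem_range, Nat.lt_succ_iff]
      apply Nat.le_floor
      refine hNA.trans ?_
      gcongr
      exact le_abs_self A
    have hwords : ∀ c : Fin r → ℕ, (∀ j, c j ≤ b j ^ w) →
        |(((range N).filter (fun i => ∀ j, tw b w (fun j => s j + i) (x m) j < c j)).card : ℝ) -
          N * ∏ j, ((c j : ℝ) / (b j : ℝ) ^ w)| ≤ Λ ^ (1 / 2 + ε / 2) := by
      intro c hc
      have hcR : c ∈ Rc := by
        rw [hRc, Fintype.mem_piFinset]
        intro j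
        have := hc j
        rw [mem_range]
        omega
      have hmU : Psi b J s (x m) ∉ U c N := by
        intro h1
        apply hcon
        simp only [mem_biUnion]
        exact ⟨s, hsT, N, hNT, c, hcR, mem_filter.2 ⟨hmb, h1⟩⟩
      rw [hU] at hmU
      simp only [Set.mem_ofPred_eq, not_lt] at hmU
      rw [WS_cen hq1, mn_FM hb1, mn_bx hc] at hmU
      have h3 : ∑ i ∈ range N, FM b w (bx c) (wd (∏ j, b j) w (0 + i) (Psi b J s (x m))) =
          (((range N).filter (fun i => ∀ j, tw b w (fun j => s j + i) (x m) j < c j)).card : ℝ) := by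
        rw [card_filter]
        push_cast
        refine sum_congr rfl fun i hi => ?_
        rw [mem_range] at hi
        have h4 : i + w ≤ J := by
          have h5 : ((i + w : ℕ) : ℝ) ≤ J := by
            push_cast
            have h6 : (i : ℝ) ≤ N := by exact_mod_cast hi.le
            calc (i : ℝ) + w ≤ A * Λ + Λ := by linarith
              _ = (A + 1) * Λ := by ring
              _ ≤ J := hJ1
          exact_mod_cast h5
        rw [zero_add, wd_Psi hb1 h4, FM_mix hb1 w _ (mem_words.2 (tw_lt hb1 _ _ _))]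
        rfl
      rw [h3] at hmU
      exact hmU
    have h1 := disc_of_words hb1 w s N (x m) _ hwords
    have h2 : Λ ^ (1 / 2 + ε / 2) + N * ∑ j, 1 / (b j : ℝ) ^ w ≤ Λ ^ (1 / 2 + ε) := by
      have h3 : ∑ j, 1 / (b j : ℝ) ^ w ≤ r * (1 / Λ) := by
        calc ∑ j, 1 / (b j : ℝ) ^ w ≤ ∑ _j : Fin r, 1 / Λ := by
              refine sum_le_sum fun j _ => ?_
              apply one_div_le_one_div_of_le hΛ0
              refine hw3.trans ?_
              have : (2 : ℝ) ≤ b j := by exact_mod_cast hb j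
              gcongr
          _ = r * (1 / Λ) := by
              rw [sum_const, card_univ, Fintype.card_fin, nsmul_eq_mul]
      have h4 : (N : ℝ) * ∑ j, 1 / (b j : ℝ) ^ w ≤ r * |A| := by
        calc (N : ℝ) * ∑ j, 1 / (b j : ℝ) ^ w ≤ (|A| * Λ) * (r * (1 / Λ)) := by
              apply mul_le_mul _ h3 (by
                apply sum_nonneg
                intro j _
                positivity) (by positivity)
              refine hNA.trans ?_
              gcongr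
              exact le_abs_self A
          _ = r * |A| := by field_simp
      have h5 : 1 ≤ Λ ^ (1 / 2 + ε / 2) := Real.one_le_rpow hΛ1 (by positivity)
      have h6 : Λ ^ (1 / 2 + ε) = Λ ^ (ε / 2) * Λ ^ (1 / 2 + ε / 2) := by
        rw [← Real.rpow_add hΛ0]
        congr 1
        ring
      have h7 : 0 ≤ (r : ℝ) * |A| := by positivity
      rw [h6]
      nlinarith
    intro t ht0 ht1
    exact (h1 t ht0 ht1).trans h2
  have hrR : (0 : ℝ) ≤ r := Nat.cast_nonneg r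
  calc _ ≤ ((R.biUnion fun s => RN.biUnion fun N => Rc.biUnion fun c =>
        I.filter (fun m => Psi b J s (x m) ∈ U c N)).card : ℝ) :=
        Nat.cast_le.2 (card_le_card hsub)
    _ ≤ ((∑ s ∈ R, ∑ N ∈ RN, ∑ c ∈ Rc,
        (I.filter (fun m => Psi b J s (x m) ∈ U c N)).card : ℕ) : ℝ) := by
        refine Nat.cast_le.2 (card_biUnion_le.trans (sum_le_sum fun s _ => ?_))
        exact card_biUnion_le.trans (sum_le_sum fun N _ => card_biUnion_le)
    _ = ∑ s ∈ R, ∑ N ∈ RN, ∑ c ∈ Rc,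
        ((I.filter (fun m => Psi b J s (x m) ∈ U c N)).card : ℝ) := by
        push_cast; rfl
    _ ≤ ∑ _s ∈ R, ∑ _N ∈ RN, ∑ _c ∈ Rc, I.card * Λ ^ (-T1) :=
        sum_le_sum fun s hs => sum_le_sum fun N hN => sum_le_sum fun c hc => hone s hs N hN c hc
    _ = R.card * (RN.card * (Rc.card * (I.card * Λ ^ (-T1)))) := by
        simp only [sum_const, nsmul_eq_mul]
    _ ≤ (A1 * Λ) ^ r * ((A1 * Λ) * (Λ ^ (2 * C0) * (I.card * Λ ^ (-T1)))) := by gcongr
    _ = (A1 ^ (r + 1)) * (Λ ^ (r + 1) * Λ ^ (2 * C0) * Λ ^ (-T1)) * I.card := by ring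
    _ ≤ Λ * (Λ ^ (r + 1) * Λ ^ (2 * C0) * Λ ^ (-T1)) * I.card := by
        gcongr
        calc A1 ^ (r + 1) ≤ (2 * A1) ^ (r + 1) := by
              gcongr
              linarith
          _ ≤ Λ := hΛA
    _ = I.card * Λ ^ (-T) := by
        have h1 : Λ * (Λ ^ (r + 1) * Λ ^ (2 * C0) * Λ ^ (-T1)) = Λ ^ (-T) := by
          have h2 : Λ * Λ ^ (r + 1) = Λ ^ ((r : ℝ) + 2) := by
            rw [← pow_succ', ← Real.rpow_natCast]
            congr 1
            push_cast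
            ring
          calc Λ * (Λ ^ (r + 1) * Λ ^ (2 * C0) * Λ ^ (-T1)) =
                (Λ * Λ ^ (r + 1)) * Λ ^ (2 * C0) * Λ ^ (-T1) := by ring
            _ = Λ ^ (-T) := by
                rw [h2, ← Real.rpow_add hΛ0, ← Real.rpow_add hΛ0]
                congr 1
                rw [hT1]
                ring
        rw [h1]
        ring

open Classical in
/-- the joint discrepancy in all bases at once -/
theorem disc_all_B {κ Am : ℝ} {S : ℕ → Set (Measure (Fin r → ℝ))}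
    (hS : ∀ M, 1 ≤ M → ∀ P ∈ S M, IsProbabilityMeasure P) (hG : GoodB r S κ Am) (hr : 1 ≤ r)
    (B : ℕ) (A T ε : ℝ) (hε : 0 < ε) (hAm : (|A| + |A + 1|) * log (max B 2) ≤ Am) :
    ∃ M₀ : ℕ, ∀ M : ℕ, M₀ ≤ M → ∀ (I : Finset ι) (x : ι → Fin r → ℝ),
      I.Nonempty → unif I x ∈ S M →
      ((I.filter (fun m => ¬ ∀ b : Fin r → ℕ, (∀ j, 2 ≤ b j ∧ b j ≤ B) →
        ∀ (s : Fin r → ℕ) (N : ℕ), (∀ j, (M : ℝ) ^ κ ≤ (b j : ℝ) ^ s j) →
        (∀ j, (s j : ℝ) + N ≤ A * log M) → Disc b s N (x m) ((log M) ^ (1 / 2 + ε)))).card : ℝ) ≤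
        I.card * (log M) ^ (-T) := by
  set Bs : Finset (Fin r → ℕ) := Fintype.piFinset fun _ : Fin r => Finset.Icc 2 B with hBs
  have hmem : ∀ b : Fin r → ℕ, b ∈ Bs ↔ ∀ j, 2 ≤ b j ∧ b j ≤ B := fun b => by
    rw [hBs, Fintype.mem_piFinset]
    simp only [Finset.mem_Icc]
  have hone : ∀ b : Fin r → ℕ, ∃ M₀ : ℕ, b ∈ Bs → ∀ M : ℕ, M₀ ≤ M →
      ∀ (I : Finset ι) (x : ι → Fin r → ℝ), I.Nonempty → unif I x ∈ S M →
      ((I.filter (fun m => ¬ ∀ (s : Fin r → ℕ) (N : ℕ), (∀ j, (M : ℝ) ^ κ ≤ (b j : ℝ) ^ s j) →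
        (∀ j, (s j : ℝ) + N ≤ A * log M) → Disc b s N (x m) ((log M) ^ (1 / 2 + ε)))).card : ℝ) ≤
        I.card * (log M) ^ (-(T + 1)) := by
    intro b
    by_cases hb : b ∈ Bs
    · obtain ⟨M0, h⟩ := disc_one_B (ι := ι) hS hG hr
        (fun j => ((hmem b).1 hb j).1) A (T + 1) ε hε (B1 := max B 2) (le_max_right _ _)
        (fun j => le_trans (by exact_mod_cast ((hmem b).1 hb j).2) (le_max_left _ _)) hAm
      exact ⟨M0, fun _ => h⟩
    · exact ⟨0, fun h => absurd h hb⟩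
  choose M0 h using hone
  have hlog : Tendsto (fun M : ℕ => log (M : ℝ)) atTop atTop :=
    Real.tendsto_log_atTop.comp tendsto_natCast_atTop_atTop
  obtain ⟨M1, hM1⟩ := eventually_atTop.1 ((hlog.eventually_ge_atTop (Bs.card : ℝ)).and
    (hlog.eventually_gt_atTop 0))
  refine ⟨max (Bs.sup M0) M1, ?_⟩
  intro M hM I x hI hx
  have hMs : Bs.sup M0 ≤ M := le_of_max_le_left hM
  obtain ⟨hΛB, hΛ0⟩ := hM1 M (le_of_max_le_right hM)
  set Λ : ℝ := log (M : ℝ) with hΛ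
  have hsub : I.filter (fun m => ¬ ∀ b : Fin r → ℕ, (∀ j, 2 ≤ b j ∧ b j ≤ B) →
        ∀ (s : Fin r → ℕ) (N : ℕ), (∀ j, (M : ℝ) ^ κ ≤ (b j : ℝ) ^ s j) →
        (∀ j, (s j : ℝ) + N ≤ A * Λ) → Disc b s N (x m) (Λ ^ (1 / 2 + ε))) ⊆
      Bs.biUnion fun b => I.filter (fun m => ¬ ∀ (s : Fin r → ℕ) (N : ℕ),
        (∀ j, (M : ℝ) ^ κ ≤ (b j : ℝ) ^ s j) →
        (∀ j, (s j : ℝ) + N ≤ A * Λ) → Disc b s N (x m) (Λ ^ (1 / 2 + ε))) := by
    intro m hm
    rw [mem_filter] at hm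
    obtain ⟨hmT, hm⟩ := hm
    by_contra hcon
    apply hm
    intro b hb
    by_contra h3
    apply hcon
    rw [mem_biUnion]
    exact ⟨b, (hmem b).2 hb, mem_filter.2 ⟨hmT, h3⟩⟩
  calc _ ≤ ((Bs.biUnion fun b => I.filter (fun m => ¬ ∀ (s : Fin r → ℕ) (N : ℕ),
        (∀ j, (M : ℝ) ^ κ ≤ (b j : ℝ) ^ s j) →
        (∀ j, (s j : ℝ) + N ≤ A * Λ) → Disc b s N (x m) (Λ ^ (1 / 2 + ε)))).card : ℝ) :=
        Nat.cast_le.2 (card_le_card hsub)
    _ ≤ ((∑ b ∈ Bs, (I.filter (fun m => ¬ ∀ (s : Fin r → ℕ) (N : ℕ),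
        (∀ j, (M : ℝ) ^ κ ≤ (b j : ℝ) ^ s j) →
        (∀ j, (s j : ℝ) + N ≤ A * Λ) → Disc b s N (x m) (Λ ^ (1 / 2 + ε)))).card : ℕ) : ℝ) :=
        Nat.cast_le.2 card_biUnion_le
    _ = ∑ b ∈ Bs, ((I.filter (fun m => ¬ ∀ (s : Fin r → ℕ) (N : ℕ),
        (∀ j, (M : ℝ) ^ κ ≤ (b j : ℝ) ^ s j) →
        (∀ j, (s j : ℝ) + N ≤ A * Λ) → Disc b s N (x m) (Λ ^ (1 / 2 + ε)))).card : ℝ) := by
        push_cast; rfl
    _ ≤ ∑ _b ∈ Bs, I.card * Λ ^ (-(T + 1)) :=
        sum_le_sum fun b hb => h b hb M ((Finset.le_sup hb).trans hMs) I x hI hx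
    _ = Bs.card * (I.card * Λ ^ (-(T + 1))) := by rw [sum_const, nsmul_eq_mul]
    _ ≤ Λ * (I.card * Λ ^ (-(T + 1))) := by gcongr
    _ = I.card * (Λ * Λ ^ (-(T + 1))) := by ring
    _ = I.card * Λ ^ (-T) := by
        congr 1
        nth_rewrite 1 [← Real.rpow_one Λ]
        rw [← Real.rpow_add hΛ0]
        congr 1
        ring

end Pool.Agent.Q270.SR
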