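import Pool.Agent.Q270.SR.Alg
import Pool.Agent.Q270.SR.DiscB
import Pool.Agent.Q270.SP.PrimeFam

/-!
# One number
-/

set_option autoImplicit false

namespace Pool.Agent.Q270.SR

open Finset Real Filter Topology MeasureTheory ProbabilityTheory
open Pool.Agent.Y951.TU (hat lin words mem_words mnT cvT tw unif)
open Pool.Agent.Q270.AA (GoodB clt_B)
open Pool.Agent.Q270.SP (GoodT)
open Pool.Agent.Q270.PX (FrS)
open Pool.Agent.Y933.KD (wd)

/-- families which are good for all frequencies -/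
theorem good_of_T {r : ℕ} {S : ℕ → Set (Measure (Fin r → ℝ))} (hG : GoodT r S) (κ A : ℝ)
    (hA : 0 ≤ A) : GoodB r S κ A := by
  intro Sm _ k
  obtain ⟨η, hη, M0, hM0⟩ := hG (A + 2) (by linarith)
  refine ⟨min η 1, lt_min hη one_pos, max M0 (max k 1), fun M hM P hP q hq h hh hne => ?_⟩
  have hMM0 : M0 ≤ M := le_of_max_le_left hM
  have hkM : k ≤ M := le_of_max_le_left (le_of_max_le_right hM)
  have hM1 : 1 ≤ M := le_of_max_le_right (le_of_max_le_right hM)
  have hMR : (1 : ℝ) ≤ M := by exact_mod_cast hM1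
  have hMp : (0 : ℝ) < M := by linarith
  refine (hM0 M hMM0 P hP _ hne fun j => ?_).trans
    (Real.rpow_le_rpow_of_exponent_le hMR (neg_le_neg (min_le_left _ _)))
  rw [Finset.sum_apply]
  push_cast
  calc |∑ i, ((h i • q i) j : ℝ)| ≤ ∑ i, |((h i • q i) j : ℝ)| := abs_sum_le_sum_abs _ _
    _ ≤ ∑ _i : Fin k, (M : ℝ) ^ (1 : ℝ) * (M : ℝ) ^ A := by
        refine sum_le_sum fun i _ => ?_
        rw [Pi.smul_apply, smul_eq_mul, Int.cast_mul, abs_mul]
        have h1 : |(h i : ℝ)| ≤ (M : ℝ) ^ (1 : ℝ) :=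
          (hh i).trans (Real.rpow_le_rpow_of_exponent_le hMR (min_le_right _ _))
        have h2 : |(q i j : ℝ)| ≤ (M : ℝ) ^ A := by
          obtain ⟨s, j', _, _, hs, hq'⟩ := hq i
          rw [hq']
          simp only [Pi.single_apply]
          split_ifs
          · rw [mul_one]
            push_cast
            rw [Nat.abs_cast]
            exact hs
          · rw [mul_zero, Int.cast_zero, abs_zero]
            positivity
        exact mul_le_mul h1 h2 (abs_nonneg _) (by positivity)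
    _ = k * ((M : ℝ) ^ (1 : ℝ) * (M : ℝ) ^ A) := by
        rw [sum_const, card_univ, Fintype.card_fin, nsmul_eq_mul]
    _ ≤ M * ((M : ℝ) ^ (1 : ℝ) * (M : ℝ) ^ A) := by
        have : (k : ℝ) ≤ M := by exact_mod_cast hkM
        gcongr
    _ = (M : ℝ) ^ (A + 2) := by
        rw [show A + 2 = 1 + (1 + A) by ring, Real.rpow_add hMp, Real.rpow_add hMp,
          Real.rpow_one]

/-- the mean of `F` over the words of `w` digits -/
noncomputable def mean (b w : ℕ) (F : ℕ → ℝ) : ℝ := (∑ c ∈ Finset.range (b ^ w), F c) / (b : ℝ) ^ w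

/-- the covariance of the values of `F` at two words of `w` random digits at the distance `h` -/
noncomputable def cov (b w : ℕ) (F : ℕ → ℝ) (h : ℕ) : ℝ :=
  (∑ c ∈ Finset.range (b ^ (w + h)), (F (c / b ^ h) - mean b w F) * (F (c % b ^ w) - mean b w F)) /
    (b : ℝ) ^ (w + h)

/-- the asymptotic variance of the sums of `F` over the words of `w` digits -/
noncomputable def variance (b w : ℕ) (F : ℕ → ℝ) : ℝ :=
  cov b w F 0 + 2 * ∑ h ∈ Finset.Ico 1 w, cov b w F h

lemma sum_words1 (b J : ℕ) (f : ℕ → ℝ) :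
    ∑ c ∈ words (fun _ : Fin 1 => b) J, f (c 0) = ∑ a ∈ range (b ^ J), f a := by
  refine Finset.sum_nbij' (fun c => c 0) (fun a _ => a) ?_ ?_ ?_ ?_ ?_
  · intro c hc
    rw [mem_words] at hc
    exact mem_range.2 (hc 0)
  · intro a ha
    rw [mem_words]
    intro _
    exact mem_range.1 ha
  · intro c _
    funext j
    rw [Subsingleton.elim j 0]
  · intro a _
    rfl
  · intro c _
    rfl

lemma mnT1 (b w : ℕ) (F : ℕ → ℝ) : mnT (fun _ : Fin 1 => b) w (fun c => F (c 0)) = mean b w F := by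
  unfold mnT mean
  rw [sum_words1, Fin.prod_univ_one]

lemma cvT1 (b w : ℕ) (F : ℕ → ℝ) (h : ℕ) :
    cvT (fun _ : Fin 1 => b) w (fun c => F (c 0)) h = cov b w F h := by
  unfold cvT cov
  rw [mnT1, sum_words1 b (w + h) (fun a => (F (a / b ^ h) - mean b w F) *
    (F (a % b ^ w) - mean b w F)), Fin.prod_univ_one]

/-- the discrepancy of one number -/
lemma disc1 {b s N : ℕ} {y E : ℝ} (h : Disc (fun _ : Fin 1 => b) (fun _ => s) N (fun _ => y) E)
    (t : ℝ) (ht0 : 0 ≤ t) (ht1 : t ≤ 1) :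
    |(({i : ℕ | i < N ∧ Int.fract ((b : ℝ) ^ (s + i) * y) < t}.ncard : ℕ) : ℝ) - N * t| ≤ E := by
  have h1 := h (fun _ => t) (fun _ => ht0) (fun _ => ht1)
  rw [Fin.prod_univ_one] at h1
  have h2 : {i : ℕ | i < N ∧ Int.fract ((b : ℝ) ^ (s + i) * y) < t} =
      (((range N).filter (fun i => ∀ _j : Fin 1, Int.fract ((b : ℝ) ^ (s + i) * y) < t) :
        Finset ℕ) : Set ℕ) := by
    ext i
    simp only [Set.mem_ofPred_eq, coe_filter, Finset.mem_range, forall_const]
  rw [h2, Set.ncard_coe_finset]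
  exact h1

end Pool.Agent.Q270.SR
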