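import Pool.Agent.Q270.AA.Str
import Pool.Agent.Q270.PX.Dioph0

/-!
# Good families from bounds depending on the size of the frequency only
-/

set_option autoImplicit false

namespace Pool.Agent.Q270.SR

open Finset Real Filter Topology MeasureTheory
open Pool.Agent.TH419.WI (Smooth)
open Pool.Agent.Y951.TU (hat lin)
open Pool.Agent.Q270.PX (FrS dioph_ne)
open Pool.Agent.Q270.AA (GoodB)

variable {m : ℕ}

theorem good_of_size {S : ℕ → Set (Measure (Fin m → ℝ))} {κ A : ℝ} (hκ : 0 < κ) (hA : 0 ≤ A)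
    (H : ∃ η : ℝ, 0 < η ∧ ∃ M0 : ℕ, ∀ M : ℕ, M0 ≤ M → ∀ P ∈ S M, ∀ l : Fin m → ℤ,
      (∃ j, (M : ℝ) ^ (κ / 2) ≤ |(l j : ℝ)|) → (∀ j, |(l j : ℝ)| ≤ (M : ℝ) ^ (A + 2)) →
      ‖hat (lin m) P l‖ ≤ (M : ℝ) ^ (-η)) : GoodB m S κ A := by
  classical
  intro Sm hSm k
  obtain ⟨η0, hη0, M1, hM1⟩ := H
  obtain ⟨η1, hη1, L1, hL1⟩ := dioph_ne (r := 1) (fun _ => (1 : ℝ)) (fun _ => isAlgebraic_one) Sm
    hSm k A (κ / 2) hA (by positivity)
  set η : ℝ := min (min η1 1) η0 with hη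
  have hη0' : 0 < η := lt_min (lt_min hη1 one_pos) hη0
  have hηη1 : η ≤ η1 := (min_le_left _ _).trans (min_le_left _ _)
  have hη11 : η ≤ 1 := (min_le_left _ _).trans (min_le_right _ _)
  have hηη0 : η ≤ η0 := min_le_right _ _
  have hlog : Tendsto (fun M : ℕ => log (M : ℝ)) atTop atTop :=
    Real.tendsto_log_atTop.comp tendsto_natCast_atTop_atTop
  have hcast : Tendsto (fun M : ℕ => (M : ℝ)) atTop atTop := tendsto_natCast_atTop_atTop
  have hev : ∀ᶠ M : ℕ in atTop, M1 ≤ M ∧ L1 ≤ log (M : ℝ) ∧ (k : ℝ) ≤ M ∧ (1 : ℝ) ≤ M := by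
    filter_upwards [eventually_ge_atTop M1, hlog.eventually_ge_atTop L1,
      hcast.eventually_ge_atTop (k : ℝ), hcast.eventually_ge_atTop 1] with M a1 a2 a3 a5
    exact ⟨a1, a2, a3, a5⟩
  obtain ⟨M0, hM0⟩ := eventually_atTop.1 hev
  refine ⟨η, hη0', M0, ?_⟩
  intro M hM μ hμ qq hqq h hh hne
  obtain ⟨b1, b2, b3, b5⟩ := hM0 M hM
  have hMp : (0 : ℝ) < M := by linarith
  have hexpM : ∀ a : ℝ, Real.exp (a * log (M : ℝ)) = (M : ℝ) ^ a := fun a => by
    rw [Real.rpow_def_of_pos hMp, mul_comm]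
  choose s jj hs1 hs2 hs3 hs4 using hqq
  set c : Fin k → Fin m → ℤ := fun i => Pi.single (jj i) 1 with hc
  set l : Fin m → ℤ := ∑ i, h i • qq i with hl
  have hlj : ∀ j, l j = ∑ i, h i * (s i * c i j) := by
    intro j
    rw [hl, Finset.sum_apply]
    refine sum_congr rfl fun i _ => ?_
    rw [Pi.smul_apply, hs4 i, smul_eq_mul]
  have hcabs : ∀ i j, |(c i j : ℝ)| ≤ 1 := by
    intro i j
    rw [hc]
    simp only [Pi.single_apply]
    split_ifs <;> simp
  have hk : Nonempty (Fin k) := by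
    by_contra hcon
    rw [not_nonempty_iff] at hcon
    apply hne
    rw [hl]
    exact Finset.sum_of_isEmpty _
  obtain ⟨i0, -, hi0⟩ := Finset.exists_min_image univ s (univ_nonempty (α := Fin k))
  obtain ⟨j0, hj0⟩ : ∃ j, l j ≠ 0 := by
    by_contra hcon
    push Not at hcon
    exact hne (funext hcon)
  -- the size of the frequency
  have hbig : (M : ℝ) ^ (κ / 2) ≤ |(l j0 : ℝ)| := by
    have h1 := hL1 (log M) b2 (s i0) s (fun i _ => c i j0) h (hs1 i0)
      (by rw [hexpM]; exact hs3 i0) (fun i => hi0 i (mem_univ i)) hs1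
      (fun i => by rw [hexpM]; exact hs3 i)
      (fun i => by
        rw [hexpM]
        exact (hh i).trans (Real.rpow_le_rpow_of_exponent_le b5 hηη1))
      (fun i j' => by
        rw [hexpM]
        exact (hcabs i j0).trans (Real.one_le_rpow b5 hη1.le))
      (by
        rw [Fin.sum_univ_one, ← hlj j0, mul_one]
        exact_mod_cast hj0)
    rw [Fin.sum_univ_one, ← hlj j0, mul_one] at h1
    have h3 : Real.exp (-(κ / 2 * log (M : ℝ))) = (M : ℝ) ^ (-(κ / 2)) := by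
      rw [← hexpM]
      congr 1
      ring
    rw [h3] at h1
    refine le_trans ?_ h1.le
    calc (M : ℝ) ^ (κ / 2) = (M : ℝ) ^ κ * (M : ℝ) ^ (-(κ / 2)) := by
          rw [← Real.rpow_add hMp]
          congr 1
          ring
      _ ≤ (s i0 : ℝ) * (M : ℝ) ^ (-(κ / 2)) := by
          gcongr
          exact hs2 i0
  have hlbd : ∀ j, |(l j : ℝ)| ≤ (M : ℝ) ^ (A + 2) := by
    intro j
    rw [hlj]
    push_cast
    calc |∑ i', (h i' : ℝ) * ((s i' : ℝ) * (c i' j : ℝ))| ≤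
          ∑ i', |(h i' : ℝ) * ((s i' : ℝ) * (c i' j : ℝ))| := abs_sum_le_sum_abs _ _
      _ ≤ ∑ _i' : Fin k, (M : ℝ) ^ (1 : ℝ) * ((M : ℝ) ^ A * 1) := by
          refine sum_le_sum fun i' _ => ?_
          rw [abs_mul, abs_mul]
          have h5 : |((s i' : ℕ) : ℝ)| ≤ (M : ℝ) ^ A := by
            rw [Nat.abs_cast]; exact hs3 i'
          have h6 : |(h i' : ℝ)| ≤ (M : ℝ) ^ (1 : ℝ) :=
            (hh i').trans (Real.rpow_le_rpow_of_exponent_le b5 hη11)
          exact mul_le_mul h6 (mul_le_mul h5 (hcabs i' j) (abs_nonneg _) (by positivity))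
            (by positivity) (by positivity)
      _ = k * ((M : ℝ) ^ (1 : ℝ) * (M : ℝ) ^ A) := by
          rw [sum_const, card_univ, Fintype.card_fin, nsmul_eq_mul, mul_one]
      _ ≤ M * ((M : ℝ) ^ (1 : ℝ) * (M : ℝ) ^ A) := by gcongr
      _ = (M : ℝ) ^ (A + 2) := by
          rw [show A + 2 = 1 + (1 + A) by ring, Real.rpow_add hMp, Real.rpow_add hMp,
            Real.rpow_one]
  exact (hM1 M b1 μ hμ l ⟨j0, hbig⟩ hlbd).trans
    (Real.rpow_le_rpow_of_exponent_le b5 (neg_le_neg hηη0))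

end Pool.Agent.Q270.SR
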