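import Pool.Agent.Y933.KG.AlgHat
import Pool.Agent.Q270.SR.OfSize

/-!
# The real algebraic numbers of given degree, ordered by height, are a good family
-/

set_option autoImplicit false

namespace Pool.Agent.Q270.SR

open Finset Real Filter Topology MeasureTheory Polynomial
open Pool.Agent.Y951.TU (hat lin lin_apply unif unif_prob integral_unif)
open Pool.Agent.Q270.AA (GoodB)
open Pool.Agent.Y933.KG (Alg Alg_finite alg_hat)

/-- the finite set of the real algebraic numbers of degree `q + 2` and height at most `H` -/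
noncomputable def AlgS (q H : ℕ) : Finset ℝ := (Alg_finite q H).toFinset

lemma mem_AlgS (q H : ℕ) (x : ℝ) : x ∈ AlgS q H ↔ x ∈ Alg (q + 2) H := by
  unfold AlgS
  rw [Set.Finite.mem_toFinset]

/-- the admissible polynomials -/
def Moderate (q H : ℕ) (c : ℝ) (G : ℝ[X]) : Prop :=
  1 ≤ G.natDegree ∧ G.natDegree ≤ q + 1 ∧ (∀ i, 1 ≤ i → |G.coeff i| ≤ (H : ℝ) ^ c) ∧
    (H : ℝ) ^ (-c) ≤ |G.leadingCoeff|

/-- the laws of the values of the polynomials -/
def SA (q : ℕ) (c : ℝ) (H : ℕ) : Set (Measure (Fin 1 → ℝ)) :=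
  {P | (AlgS q H).Nonempty ∧ ∃ G : ℝ[X], Moderate q H c G ∧
    P = unif (AlgS q H) (fun x _ => G.eval x)}

lemma SA_prob (q : ℕ) (c : ℝ) (H : ℕ) (_hH : 1 ≤ H) (P : Measure (Fin 1 → ℝ))
    (hP : P ∈ SA q c H) : IsProbabilityMeasure P := by
  obtain ⟨hne, G, _, rfl⟩ := hP
  exact unif_prob hne _

theorem good_SA (q : ℕ) (κ A : ℝ) (hκ : 0 < κ) (hA : 0 ≤ A) :
    ∃ c : ℝ, 0 < c ∧ GoodB 1 (SA q c) κ A ∧ ∃ H0 : ℕ, ∀ H : ℕ, H0 ≤ H → (AlgS q H).Nonempty := by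
  obtain ⟨c, hc, ρ, hρ, H0, hH0⟩ := alg_hat q (⌈A + 2⌉₊ + 1) (by omega) (κ / 2) (by positivity)
  refine ⟨c, hc, good_of_size hκ hA ⟨ρ, hρ, max H0 1, ?_⟩, H0, ?_⟩
  · intro H hH P hP l hl1 hl2
    have hHH0 : H0 ≤ H := le_of_max_le_left hH
    have hHR : (1 : ℝ) ≤ H := by exact_mod_cast le_of_max_le_right hH
    obtain ⟨hne, G, ⟨hG1, hG2, hG3, hG4⟩, rfl⟩ := hP
    have hcard : (0 : ℝ) < (AlgS q H).card := by exact_mod_cast hne.card_pos
    obtain ⟨j, hj⟩ := hl1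
    have hj0 : j = 0 := Subsingleton.elim _ _
    subst hj0
    have h1 := (hH0 H hHH0).2 G hG1 hG2 hG3 hG4 (l 0) hj ((hl2 0).trans
      (Real.rpow_le_rpow_of_exponent_le hHR (by
        push_cast
        linarith [Nat.le_ceil (A + 2)]))) (AlgS q H) (mem_AlgS q H)
    unfold hat
    rw [integral_unif]
    have h2 : ∑ x ∈ AlgS q H, Pool.Agent.Y933.KD.e (lin 1 l fun _ => G.eval x) =
        ∑ x ∈ AlgS q H, Pool.Agent.H469R2.NK.e ((l 0 : ℝ) * G.eval x) := by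
      refine sum_congr rfl fun x _ => ?_
      rw [lin_apply, Fin.sum_univ_one]
      rfl
    rw [h2, norm_mul, norm_div, norm_one, Complex.norm_natCast, one_div, inv_mul_le_iff₀ hcard]
    exact h1
  · intro H hH
    obtain ⟨x, hx⟩ := (hH0 H hH).1
    exact ⟨x, (mem_AlgS q H x).2 hx⟩

end Pool.Agent.Q270.SR
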