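import Pool.Agent.Y933.KE.CltW
import Pool.Agent.Y933.KE.NormW

/-!
# Word sums of the order of the square root, from word tests
-/

set_option autoImplicit false

namespace Pool.Agent.Q270.SR

open Finset Real MeasureTheory Filter Topology
open Pool.Agent.Y933.KD
open Pool.Agent.Y933.KE

/-- even moments of word sums under Lebesgue measure, uniformly in the length of the words -/
lemma mom_Leb {b w : ℕ} {G : ℕ → ℝ} (hb : 1 ≤ b) (hw : 1 ≤ w) (hG : ∀ c, |G c| ≤ 1)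
    (hG0 : ∑ c ∈ range (b ^ w), G c = 0) (T s N : ℕ) (hN : 1 ≤ N) :
    ∫ x, WS b w G s N x ^ (2 * T) ∂Leb ≤ (2 * T).factorial * 9 * ((w : ℝ) ^ 2 * N) ^ T := by
  have hwR : (1 : ℝ) ≤ w := by exact_mod_cast hw
  have hw0 : (0 : ℝ) < w := by linarith
  have hNR : (1 : ℝ) ≤ N := by exact_mod_cast hN
  have hN0 : (0 : ℝ) < N := by linarith
  have hsq0 : 0 < √(N : ℝ) := Real.sqrt_pos.2 hN0
  set Z : ℝ → ℝ := fun x => (∑ n ∈ range N, Xw b w G n x) / √(N : ℝ) with hZ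
  have hZm : Measurable Z :=
    (Finset.measurable_fun_sum _ fun j _ => measurable_Xw _ _ _ _).div_const _
  have hZb : ∀ x, |Z x| ≤ √(N : ℝ) := by
    intro x
    rw [hZ]
    simp only
    rw [abs_div, abs_of_pos hsq0, div_le_iff₀ hsq0]
    have h1 := abs_sum_Xw_le (b := b) (w := w) hG (range N) x
    rw [card_range, mul_one] at h1
    rw [Real.mul_self_sqrt hN0.le]
    exact h1
  -- back to the place `0`
  have h1 : ∫ x, WS b w G s N x ^ (2 * T) ∂Leb =
      ∫ x, (∑ n ∈ range N, Xw b w G n x) ^ (2 * T) ∂Leb := by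
    simp only [WS_eq]
    refine invariance_real hb (h := fun y => (∑ n ∈ range N, Xw b w G n y) ^ (2 * T))
      ((Finset.measurable_fun_sum _ fun j _ => measurable_Xw _ _ _ _).pow_const _)
      (C := (N : ℝ) ^ (2 * T)) fun y => ?_
    rw [abs_pow]
    have h2 := abs_sum_Xw_le (b := b) (w := w) hG (range N) y
    rw [card_range, mul_one] at h2
    exact pow_le_pow_left₀ (abs_nonneg _) h2 _
  have h2 : ∀ x, (∑ n ∈ range N, Xw b w G n x) ^ (2 * T) =
      ((w : ℝ) ^ 2 * N) ^ T * (1 / (w : ℝ) * Z x) ^ (2 * T) := by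
    intro x
    rw [hZ]
    simp only
    rw [mul_pow, mul_pow, div_pow, div_pow, one_pow, pow_mul (√(N : ℝ)), Real.sq_sqrt hN0.le,
      ← pow_mul]
    field_simp
  have h3 : ∀ x, (1 / (w : ℝ) * Z x) ^ (2 * T) ≤ (2 * T).factorial *
      (exp (1 / (w : ℝ) * Z x) + exp (-(1 / (w : ℝ)) * Z x)) := by
    intro x
    have h4 := Real.pow_div_factorial_le_exp |1 / (w : ℝ) * Z x| (abs_nonneg _) (2 * T)
    rw [div_le_iff₀ (by positivity)] at h4
    have h5 : |1 / (w : ℝ) * Z x| ^ (2 * T) = (1 / (w : ℝ) * Z x) ^ (2 * T) := by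
      rw [pow_mul, sq_abs, ← pow_mul]
    rw [h5] at h4
    refine h4.trans ?_
    rw [mul_comm]
    refine mul_le_mul_of_nonneg_left ?_ (Nat.cast_nonneg _)
    rcases abs_cases (1 / (w : ℝ) * Z x) with ⟨h6, _⟩ | ⟨h6, _⟩
    · rw [h6]
      have := exp_pos (-(1 / (w : ℝ)) * Z x)
      linarith
    · rw [h6, ← neg_mul]
      have := exp_pos (1 / (w : ℝ) * Z x)
      linarith
  have hint : ∀ t : ℝ, Integrable (fun x => exp (t * Z x)) Leb := by
    intro t
    refine integrable_of_bdd (Real.measurable_exp.comp (hZm.const_mul t))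
      (R := exp (|t| * √(N : ℝ))) fun x => ?_
    rw [abs_of_pos (exp_pos _)]
    apply exp_le_exp.2
    refine (le_abs_self _).trans ?_
    rw [abs_mul]
    exact mul_le_mul_of_nonneg_left (hZb x) (abs_nonneg _)
  have hexp : ∀ t : ℝ, |t| = 1 / (w : ℝ) → ∫ x, exp (t * Z x) ∂Leb ≤ 9 / 2 := by
    intro t ht
    have h4 := exp_norm (K := 1) hb hw hG hG0 t N hN
    refine h4.trans ?_
    rw [ht, ← Real.exp_add, one_pow, one_mul, mul_one, mul_pow, ← sq_abs t, ht]
    have h5 : 1 / (w : ℝ) * w + (1 / (w : ℝ)) ^ 2 * (w : ℝ) ^ 2 / 2 = 3 / 2 := by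
      field_simp
      norm_num
    rw [h5]
    have h6 : exp (3 / 2 : ℝ) ^ 2 ≤ (9 / 2) ^ 2 := by
      rw [← Real.exp_nat_mul]
      have h7 : ((2 : ℕ) : ℝ) * (3 / 2) = ((3 : ℕ) : ℝ) * 1 := by norm_num
      rw [h7, Real.exp_nat_mul]
      have h8 := Real.exp_one_lt_d9
      have h9 := Real.exp_pos 1
      calc exp 1 ^ 3 ≤ 2.7182818286 ^ 3 := by gcongr
        _ ≤ (9 / 2) ^ 2 := by norm_num
    exact (pow_le_pow_iff_left₀ (exp_pos _).le (by norm_num) two_ne_zero).1 h6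
  rw [h1]
  simp only [h2]
  rw [MeasureTheory.integral_const_mul]
  have h4 : ∫ x, (1 / (w : ℝ) * Z x) ^ (2 * T) ∂Leb ≤ (2 * T).factorial * 9 := by
    calc ∫ x, (1 / (w : ℝ) * Z x) ^ (2 * T) ∂Leb ≤ ∫ x, ((2 * T).factorial : ℝ) *
          (exp (1 / (w : ℝ) * Z x) + exp (-(1 / (w : ℝ)) * Z x)) ∂Leb := by
          apply integral_mono_of_nonneg
          · exact Eventually.of_forall fun x => by
              simp only [Pi.zero_apply]
              rw [pow_mul]
              positivity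
          · exact ((hint _).add (hint _)).const_mul _
          · exact Eventually.of_forall h3
      _ = (2 * T).factorial * (∫ x, exp (1 / (w : ℝ) * Z x) ∂Leb +
          ∫ x, exp (-(1 / (w : ℝ)) * Z x) ∂Leb) := by
          rw [MeasureTheory.integral_const_mul, integral_add (hint _) (hint _)]
      _ ≤ (2 * T).factorial * (9 / 2 + 9 / 2) := by
          have h5 := hexp (1 / w) (abs_of_pos (by positivity))
          have h6 := hexp (-(1 / w)) (by rw [abs_neg]; exact abs_of_pos (by positivity))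
          gcongr
      _ = _ := by ring
  calc ((w : ℝ) ^ 2 * N) ^ T * ∫ x, (1 / (w : ℝ) * Z x) ^ (2 * T) ∂Leb ≤
        ((w : ℝ) ^ 2 * N) ^ T * ((2 * T).factorial * 9) := by gcongr
    _ = _ := by ring

/-- Markov's inequality for even moments -/
lemma markov (P : Measure ℝ) [IsProbabilityMeasure P] {f : ℝ → ℝ} (hf : Measurable f) {R : ℝ}
    (hR : ∀ x, |f x| ≤ R) {lam : ℝ} (hl : 0 < lam) (T : ℕ) :
    P.real {x | lam < |f x|} ≤ (∫ x, f x ^ (2 * T) ∂P) / lam ^ (2 * T) := by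
  have hm : MeasurableSet {x | lam < |f x|} := measurableSet_lt measurable_const hf.abs
  rw [le_div_iff₀ (by positivity)]
  have hint : Integrable (fun x => f x ^ (2 * T)) P :=
    integrable_pow_of_bdd hf hR _
  calc P.real {x | lam < |f x|} * lam ^ (2 * T) =
        ∫ x, ({x | lam < |f x|} : Set ℝ).indicator (fun _ => lam ^ (2 * T)) x ∂P := by
        rw [integral_indicator hm, integral_const, smul_eq_mul, measureReal_restrict_apply_univ]
    _ ≤ ∫ x, f x ^ (2 * T) ∂P := by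
        apply integral_mono ((integrable_const _).indicator hm) hint
        intro x
        by_cases hx : x ∈ {x | lam < |f x|}
        · rw [Set.indicator_of_mem hx]
          have h1 : lam ^ (2 * T) ≤ |f x| ^ (2 * T) :=
            pow_le_pow_left₀ hl.le (le_of_lt hx) _
          rwa [pow_mul |f x|, sq_abs, ← pow_mul] at h1
        · rw [Set.indicator_of_notMem hx]
          simp only
          rw [pow_mul]
          positivity

/-- **word sums are of the order of the square root**, outside of small sets -/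
theorem sqrt_TW {b : ℕ} (hb : 2 ≤ b) {A : ℝ} {S : ℕ → Set (Measure ℝ)}
    (hS : ∀ M, 1 ≤ M → ∀ P ∈ S M, IsProbabilityMeasure P) (hT : ∀ k, TW b k (A + 1) S)
    (C0 T ε : ℝ) (hε : 0 < ε) :
    ∃ M0 : ℕ, ∀ M : ℕ, M0 ≤ M → ∀ P ∈ S M, ∀ w : ℕ, 1 ≤ w → ((b : ℝ) ^ w ≤ (log M) ^ C0) →
      ∀ G : ℕ → ℝ, (∀ c, |G c| ≤ 1) → ∑ c ∈ range (b ^ w), G c = 0 → ∀ s N : ℕ,
      (s : ℝ) + N ≤ A * log M →
      P.real {x | (log M) ^ (1 / 2 + ε) < |WS b w G s N x|} ≤ (log M) ^ (-T) := by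
  have hb1 : 1 ≤ b := by omega
  have hbR : (2 : ℝ) ≤ b := by exact_mod_cast hb
  -- the number of moments
  set t : ℕ := ⌈T / ε⌉₊ + 1 with ht
  have htT : T ≤ ε * t := by
    have h1 := Nat.le_ceil (T / ε)
    rw [div_le_iff₀ hε] at h1
    rw [ht]
    push_cast
    nlinarith
  obtain ⟨δ, hδ, C, hC⟩ := hT (2 * t)
  -- asymptotics in terms of `Λ = log M`
  set A1 : ℝ := |A| + 1 with hA1
  have hA10 : 0 < A1 := by positivity
  have hlog : Tendsto (fun M : ℕ => log (M : ℝ)) atTop atTop :=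
    Real.tendsto_log_atTop.comp tendsto_natCast_atTop_atTop
  have hev : ∀ᶠ Λ : ℝ in atTop, 1 ≤ Λ ∧ Λ ^ C0 ≤ exp Λ ∧
      C0 * log Λ / log 2 ≤ Λ ^ (ε / 4) ∧ C0 * log Λ / log 2 ≤ Λ ∧
      (2 * t).factorial * 9 * A1 ^ t ≤ Λ ^ (ε / 4) / 2 ∧
      (A1 * Λ * Λ ^ C0) ^ (2 * t) * (|C| + 1) * exp (-(δ * Λ)) ≤ 1 / 2 := by
    have e1 : ∀ᶠ Λ : ℝ in atTop, Λ ^ C0 ≤ exp Λ := by
      have := (isLittleO_rpow_exp_atTop C0).def (show (0 : ℝ) < 1 by norm_num)
      filter_upwards [this, eventually_ge_atTop 0] with Λ h1 h2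
      rw [one_mul, Real.norm_of_nonneg (by positivity), Real.norm_of_nonneg (exp_pos _).le] at h1
      exact h1
    have e2 : ∀ a : ℝ, 0 < a → ∀ᶠ Λ : ℝ in atTop, C0 * log Λ / log 2 ≤ Λ ^ a := by
      intro a ha
      have h1 := (isLittleO_log_rpow_atTop ha).def
        (show (0 : ℝ) < 1 / (|C0 / log 2| + 1) by positivity)
      filter_upwards [h1, eventually_ge_atTop 1] with Λ h2 h3
      have h4 : 0 ≤ log Λ := Real.log_nonneg h3
      rw [Real.norm_of_nonneg h4, Real.norm_of_nonneg (by positivity)] at h2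
      calc C0 * log Λ / log 2 = (C0 / log 2) * log Λ := by ring
        _ ≤ |C0 / log 2| * log Λ := by gcongr; exact le_abs_self _
        _ ≤ |C0 / log 2| * (1 / (|C0 / log 2| + 1) * Λ ^ a) := by gcongr
        _ = (|C0 / log 2| / (|C0 / log 2| + 1)) * Λ ^ a := by ring
        _ ≤ 1 * Λ ^ a := by
            gcongr
            rw [div_le_one (by positivity)]
            linarith
        _ = Λ ^ a := one_mul _
    have e3 : ∀ᶠ Λ : ℝ in atTop, (2 * t).factorial * 9 * A1 ^ t ≤ Λ ^ (ε / 4) / 2 := by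
      have h1 := (tendsto_rpow_atTop (show 0 < ε / 4 by positivity)).eventually_ge_atTop
        (2 * ((2 * t).factorial * 9 * A1 ^ t))
      filter_upwards [h1] with Λ h2
      linarith
    have e4 : ∀ᶠ Λ : ℝ in atTop,
        (A1 * Λ * Λ ^ C0) ^ (2 * t) * (|C| + 1) * exp (-(δ * Λ)) ≤ 1 / 2 := by
      have h1 : Tendsto (fun Λ : ℝ => A1 ^ (2 * t) * (|C| + 1) *
          (Λ ^ ((1 + C0) * (2 * t : ℕ)) * exp (-(δ * Λ)))) atTop (𝓝 0) := by
        have h2 := tendsto_rpow_mul_exp_neg_mul_atTop_nhds_zero ((1 + C0) * (2 * t : ℕ)) δ hδ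
        have h3 := h2.const_mul (A1 ^ (2 * t) * (|C| + 1))
        rw [mul_zero] at h3
        refine h3.congr fun Λ => ?_
        rw [neg_mul]
      filter_upwards [h1.eventually_le_const (show (0 : ℝ) < 1 / 2 by norm_num),
        eventually_gt_atTop 0] with Λ h2 h3
      refine le_trans (le_of_eq ?_) h2
      have h4 : Λ * Λ ^ C0 = Λ ^ (1 + C0) := by
        rw [Real.rpow_add h3, Real.rpow_one]
      rw [mul_assoc A1, h4, mul_pow, ← Real.rpow_natCast (Λ ^ (1 + C0)), ← Real.rpow_mul h3.le]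
      ring
    have e5 := e2 1 one_pos
    filter_upwards [eventually_ge_atTop 1, e1, e2 (ε / 4) (by positivity), e5, e3, e4]
      with Λ h1 h2 h3 h4 h5 h6
    rw [Real.rpow_one] at h4
    exact ⟨h1, h2, h3, h4, h5, h6⟩
  obtain ⟨M1, hM1⟩ := eventually_atTop.1 ((hlog.eventually hev).and (eventually_ge_atTop 1))
  refine ⟨M1, fun M hM P hP w hw hwM G hG hG0 s N hsN => ?_⟩
  obtain ⟨⟨hΛ1, _, hw1, hw2, hmom, hsm⟩, hM2⟩ := hM1 M hM
  set Λ : ℝ := log (M : ℝ) with hΛ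
  have hΛ0 : 0 < Λ := by linarith
  have hMR : (1 : ℝ) ≤ M := by exact_mod_cast hM2
  have hMp : (0 : ℝ) < M := by linarith
  have hPp := hS M hM2 P hP
  have hlog2 : 0 < log 2 := Real.log_pos one_lt_two
  -- the length of the words
  have hwlog : (w : ℝ) ≤ C0 * log Λ / log 2 := by
    rw [le_div_iff₀ hlog2]
    have h1 : (2 : ℝ) ^ w ≤ Λ ^ C0 := le_trans (by gcongr) hwM
    have h2 := Real.log_le_log (by positivity) h1
    rw [Real.log_pow, Real.log_rpow hΛ0] at h2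
    exact h2
  have hwΛ : (w : ℝ) ≤ Λ := hwlog.trans hw2
  have hwε : (w : ℝ) ≤ Λ ^ (ε / 4) := hwlog.trans hw1
  -- the case `N = 0`
  have hlam : 0 < Λ ^ (1 / 2 + ε) := by positivity
  rcases Nat.eq_zero_or_pos N with rfl | hN
  · have h1 : {x | Λ ^ (1 / 2 + ε) < |WS b w G s 0 x|} = ∅ := by
      rw [Set.eq_empty_iff_forall_notMem]
      intro x hx
      simp only [Set.mem_ofPred_eq, WS, range_zero, sum_empty, abs_zero] at hx
      linarith
    rw [h1, measureReal_empty]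
    positivity
  have hNR : (1 : ℝ) ≤ N := by exact_mod_cast hN
  have hNA : (N : ℝ) ≤ A1 * Λ := by
    have h1 : (0 : ℝ) ≤ s := Nat.cast_nonneg s
    have h2 : A * Λ ≤ A1 * Λ := by
      gcongr
      rw [hA1]
      linarith [le_abs_self A]
    linarith
  -- Markov
  have hbd : ∀ x, |WS b w G s N x| ≤ N := fun x => by
    have := abs_WS_le (b := b) (w := w) hG s N x
    rwa [mul_one] at this
  have hmk := markov P (measurable_WS b w G s N) hbd hlam t
  refine hmk.trans ?_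
  -- comparison with Lebesgue measure
  have hdiff := mom_diffW (w := w) hb1 hG s N (2 * t) P Leb (Δ := |C| * (M : ℝ) ^ (-δ))
    (by positivity) (fun n c hn => by
      refine (hC M hM2 P hP n (fun _ => w) c (fun i => ?_)).trans ?_
      · have h9 : (n i : ℝ) ≤ A * Λ := by
          refine le_trans ?_ hsN
          exact_mod_cast hn i
        calc (n i : ℝ) + w ≤ A * Λ + Λ := add_le_add h9 hwΛ
          _ = (A + 1) * Λ := by ring
      · exact mul_le_mul_of_nonneg_right (le_abs_self _) (by positivity))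
  have hL := mom_Leb hb1 hw hG hG0 t s N hN
  have hMδ : (M : ℝ) ^ (-δ) = exp (-(δ * Λ)) := by
    rw [Real.rpow_def_of_pos hMp, ← hΛ]
    congr 1
    ring
  have h1 : ∫ x, WS b w G s N x ^ (2 * t) ∂P ≤
      (2 * t).factorial * 9 * ((w : ℝ) ^ 2 * N) ^ t + 1 / 2 := by
    have h2 := (abs_le.1 hdiff).2
    have h3 : (N * b ^ w * 1) ^ (2 * t) * (|C| * (M : ℝ) ^ (-δ)) ≤ 1 / 2 := by
      rw [mul_one, hMδ]
      calc ((N : ℝ) * b ^ w) ^ (2 * t) * (|C| * exp (-(δ * Λ))) ≤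
            (A1 * Λ * Λ ^ C0) ^ (2 * t) * ((|C| + 1) * exp (-(δ * Λ))) := by
            gcongr
            linarith
        _ = (A1 * Λ * Λ ^ C0) ^ (2 * t) * (|C| + 1) * exp (-(δ * Λ)) := by ring
        _ ≤ 1 / 2 := hsm
    linarith
  have hwN : ((w : ℝ) ^ 2 * N) ^ t ≤ A1 ^ t * (Λ ^ (1 + ε / 2)) ^ t := by
    rw [← mul_pow]
    refine pow_le_pow_left₀ (by positivity) ?_ _
    calc (w : ℝ) ^ 2 * N ≤ (Λ ^ (ε / 4)) ^ 2 * (A1 * Λ) := by gcongr
      _ = A1 * (Λ ^ (ε / 2) * Λ) := by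
          rw [← Real.rpow_natCast (Λ ^ (ε / 4)), ← Real.rpow_mul hΛ0.le]
          have : ε / 4 * ((2 : ℕ) : ℝ) = ε / 2 := by push_cast; ring
          rw [this]
          ring
      _ = A1 * Λ ^ (1 + ε / 2) := by
          rw [Real.rpow_add hΛ0, Real.rpow_one]
          ring
  have hone : 1 ≤ (Λ ^ (1 + ε / 2)) ^ t := one_le_pow₀ (Real.one_le_rpow hΛ1 (by positivity))
  have hε1 : 1 ≤ Λ ^ (ε / 4) := Real.one_le_rpow hΛ1 (by positivity)
  have h2 : ∫ x, WS b w G s N x ^ (2 * t) ∂P ≤ Λ ^ (ε / 4) * (Λ ^ (1 + ε / 2)) ^ t := by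
    calc ∫ x, WS b w G s N x ^ (2 * t) ∂P ≤
          (2 * t).factorial * 9 * ((w : ℝ) ^ 2 * N) ^ t + 1 / 2 := h1
      _ ≤ (2 * t).factorial * 9 * (A1 ^ t * (Λ ^ (1 + ε / 2)) ^ t) +
          Λ ^ (ε / 4) / 2 * (Λ ^ (1 + ε / 2)) ^ t := by
          gcongr
          nlinarith
      _ = ((2 * t).factorial * 9 * A1 ^ t) * (Λ ^ (1 + ε / 2)) ^ t +
          Λ ^ (ε / 4) / 2 * (Λ ^ (1 + ε / 2)) ^ t := by ring
      _ ≤ Λ ^ (ε / 4) / 2 * (Λ ^ (1 + ε / 2)) ^ t +
          Λ ^ (ε / 4) / 2 * (Λ ^ (1 + ε / 2)) ^ t := by gcongr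
      _ = _ := by ring
  rw [div_le_iff₀ (by positivity)]
  refine h2.trans ?_
  have htR : (1 : ℝ) ≤ t := by
    rw [ht]; push_cast
    have : (0 : ℝ) ≤ (⌈T / ε⌉₊ : ℝ) := Nat.cast_nonneg _
    linarith
  rw [← Real.rpow_natCast (Λ ^ (1 + ε / 2)), ← Real.rpow_mul hΛ0.le, ← Real.rpow_add hΛ0,
    ← Real.rpow_natCast (Λ ^ (1 / 2 + ε)), ← Real.rpow_mul hΛ0.le, ← Real.rpow_add hΛ0]
  apply Real.rpow_le_rpow_of_exponent_le hΛ1
  push_cast
  nlinarith

end Pool.Agent.Q270.SR
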