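import Pool.Agent.Q270.AA.Str
import Pool.Agent.Q270.SR.Disc

/-!
# The joint discrepancy and word boxes
-/

set_option autoImplicit false

namespace Pool.Agent.Q270.SR

open Finset Real MeasureTheory Filter Topology
open Pool.Agent.Y933.KD (wd wd_lt wd_eq_iff WS cen cen_sum WS_cen mn)
open Pool.Agent.Y951.TU (mix mix_lt mix_inj mix_surj tw tw_lt prod_pos' mnT FM FM_mix mn_FM
  words mem_words)

variable {r : ℕ}

/-- the number of the `i < N` with `b_j ^ (s_j + i) z_j` modulo one below `t_j` for all `j` differs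
from `N ∏ t_j` by at most `E`, for all `t` in the unit cube -/
def Disc (b s : Fin r → ℕ) (N : ℕ) (z : Fin r → ℝ) (E : ℝ) : Prop :=
  ∀ t : Fin r → ℝ, (∀ j, 0 ≤ t j) → (∀ j, t j ≤ 1) →
    |(((range N).filter (fun i => ∀ j, Int.fract ((b j : ℝ) ^ (s j + i) * z j) < t j)).card : ℝ) -
      N * ∏ j, t j| ≤ E

lemma prod_diff {ι : Type*} (S : Finset ι) (x y : ι → ℝ) (hx0 : ∀ j, 0 ≤ x j) (hx1 : ∀ j, x j ≤ 1)
    (hy0 : ∀ j, 0 ≤ y j) (hy1 : ∀ j, y j ≤ 1) :
    |∏ j ∈ S, x j - ∏ j ∈ S, y j| ≤ ∑ j ∈ S, |x j - y j| := by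
  classical
  induction S using Finset.induction_on with
  | empty => simp
  | insert a S ha ih =>
    rw [prod_insert ha, prod_insert ha, sum_insert ha]
    have h1 : x a * ∏ j ∈ S, x j - y a * ∏ j ∈ S, y j =
        (x a - y a) * ∏ j ∈ S, x j + y a * (∏ j ∈ S, x j - ∏ j ∈ S, y j) := by ring
    rw [h1]
    refine (abs_add_le _ _).trans ?_
    rw [abs_mul, abs_mul]
    have h2 : |∏ j ∈ S, x j| ≤ 1 := by
      rw [abs_of_nonneg (prod_nonneg fun j _ => hx0 j)]
      exact prod_le_one (fun j _ => hx0 j) fun j _ => hx1 j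
    have h3 : |y a| ≤ 1 := by
      rw [abs_of_nonneg (hy0 a)]
      exact hy1 a
    calc |x a - y a| * |∏ j ∈ S, x j| + |y a| * |∏ j ∈ S, x j - ∏ j ∈ S, y j| ≤
          |x a - y a| * 1 + 1 * |∏ j ∈ S, x j - ∏ j ∈ S, y j| := by gcongr
      _ ≤ _ := by
          rw [mul_one, one_mul]
          gcongr

/-- from word boxes to real boxes -/
lemma disc_of_words {b : Fin r → ℕ} (hb : ∀ j, 1 ≤ b j) (w : ℕ) (s : Fin r → ℕ) (N : ℕ)
    (z : Fin r → ℝ) (E0 : ℝ)
    (h : ∀ c : Fin r → ℕ, (∀ j, c j ≤ b j ^ w) →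
      |(((range N).filter (fun i => ∀ j, tw b w (fun j => s j + i) z j < c j)).card : ℝ) -
        N * ∏ j, ((c j : ℝ) / (b j : ℝ) ^ w)| ≤ E0) :
    Disc b s N z (E0 + N * ∑ j, 1 / (b j : ℝ) ^ w) := by
  classical
  intro t ht0 ht1
  have hbp : ∀ j, (0 : ℝ) < (b j : ℝ) ^ w := fun j => by
    have : (0 : ℝ) < b j := by exact_mod_cast hb j
    positivity
  -- the words
  have hwd : ∀ i j, (tw b w (fun j => s j + i) z j : ℝ) ≤
      (b j : ℝ) ^ w * Int.fract ((b j : ℝ) ^ (s j + i) * z j) ∧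
      (b j : ℝ) ^ w * Int.fract ((b j : ℝ) ^ (s j + i) * z j) <
        (tw b w (fun j => s j + i) z j : ℝ) + 1 := by
    intro i j
    unfold tw wd
    constructor
    · apply Nat.floor_le
      exact mul_nonneg (hbp j).le (Int.fract_nonneg _)
    · exact Nat.lt_floor_add_one _
  set c : Fin r → ℕ := fun j => ⌊(b j : ℝ) ^ w * t j⌋₊ with hc
  have hc1 : ∀ j, (c j : ℝ) ≤ (b j : ℝ) ^ w * t j := fun j =>
    Nat.floor_le (mul_nonneg (hbp j).le (ht0 j))
  have hc2 : ∀ j, (b j : ℝ) ^ w * t j < (c j : ℝ) + 1 := fun j => Nat.lt_floor_add_one _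
  have hcb : ∀ j, c j ≤ b j ^ w := fun j => by
    have h1 : (c j : ℝ) ≤ (b j : ℝ) ^ w := (hc1 j).trans
      (by have := mul_le_mul_of_nonneg_left (ht1 j) (hbp j).le; rwa [mul_one] at this)
    exact_mod_cast h1
  set c' : Fin r → ℕ := fun j => min (c j + 1) (b j ^ w) with hc'
  have hcb' : ∀ j, c' j ≤ b j ^ w := fun j => min_le_right _ _
  -- the values
  have hv1 : ∀ j, 0 ≤ (c j : ℝ) / (b j : ℝ) ^ w := fun j => by
    have := hbp j
    positivity
  have hv2 : ∀ j, (c j : ℝ) / (b j : ℝ) ^ w ≤ 1 := fun j => by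
    rw [div_le_one (hbp j)]
    exact_mod_cast hcb j
  have hv1' : ∀ j, 0 ≤ (c' j : ℝ) / (b j : ℝ) ^ w := fun j => by
    have := hbp j
    positivity
  have hv2' : ∀ j, (c' j : ℝ) / (b j : ℝ) ^ w ≤ 1 := fun j => by
    rw [div_le_one (hbp j)]
    exact_mod_cast hcb' j
  have hd1 : ∀ j, |(c j : ℝ) / (b j : ℝ) ^ w - t j| ≤ 1 / (b j : ℝ) ^ w := fun j => by
    have h1 : (c j : ℝ) / (b j : ℝ) ^ w - t j = ((c j : ℝ) - (b j : ℝ) ^ w * t j) / (b j : ℝ) ^ w := by
      have := (hbp j).ne'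
      field_simp
    rw [h1, abs_div, abs_of_pos (hbp j)]
    refine div_le_div_of_nonneg_right ?_ (hbp j).le
    rw [abs_le]
    constructor
    · linarith [hc2 j]
    · linarith [hc1 j]
  have hd2 : ∀ j, |(c' j : ℝ) / (b j : ℝ) ^ w - t j| ≤ 1 / (b j : ℝ) ^ w := fun j => by
    have h1 : (c' j : ℝ) / (b j : ℝ) ^ w - t j =
        ((c' j : ℝ) - (b j : ℝ) ^ w * t j) / (b j : ℝ) ^ w := by
      have := (hbp j).ne'
      field_simp
    rw [h1, abs_div, abs_of_pos (hbp j)]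
    refine div_le_div_of_nonneg_right ?_ (hbp j).le
    have h2 : (c' j : ℝ) ≤ (c j : ℝ) + 1 := by
      have : c' j ≤ c j + 1 := min_le_left _ _
      exact_mod_cast this
    have h3 : (b j : ℝ) ^ w * t j ≤ c' j := by
      rw [hc']
      simp only
      push_cast
      rw [le_min_iff]
      refine ⟨(hc2 j).le, ?_⟩
      have := mul_le_mul_of_nonneg_left (ht1 j) (hbp j).le
      rwa [mul_one] at this
    rw [abs_le]
    constructor
    · have : 0 ≤ (c' j : ℝ) - (b j : ℝ) ^ w * t j := by linarith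
      linarith
    · linarith [hc1 j]
  have hp1 : |∏ j, ((c j : ℝ) / (b j : ℝ) ^ w) - ∏ j, t j| ≤ ∑ j, 1 / (b j : ℝ) ^ w :=
    (prod_diff univ _ _ hv1 hv2 ht0 ht1).trans (sum_le_sum fun j _ => hd1 j)
  have hp2 : |∏ j, ((c' j : ℝ) / (b j : ℝ) ^ w) - ∏ j, t j| ≤ ∑ j, 1 / (b j : ℝ) ^ w :=
    (prod_diff univ _ _ hv1' hv2' ht0 ht1).trans (sum_le_sum fun j _ => hd2 j)
  -- the counts
  have hle1 : (((range N).filter (fun i => ∀ j, tw b w (fun j => s j + i) z j < c j)).card : ℝ) ≤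
      ((range N).filter (fun i => ∀ j, Int.fract ((b j : ℝ) ^ (s j + i) * z j) < t j)).card := by
    refine Nat.cast_le.2 (card_le_card fun i hi => ?_)
    rw [mem_filter] at hi ⊢
    refine ⟨hi.1, fun j => ?_⟩
    have h1 : (tw b w (fun j => s j + i) z j : ℝ) + 1 ≤ c j := by
      have := hi.2 j
      exact_mod_cast this
    have h2 := (hwd i j).2
    have h3 : (b j : ℝ) ^ w * Int.fract ((b j : ℝ) ^ (s j + i) * z j) < (b j : ℝ) ^ w * t j := by
      linarith [hc1 j]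
    exact lt_of_mul_lt_mul_left h3 (hbp j).le
  have hle2 : (((range N).filter (fun i => ∀ j, Int.fract ((b j : ℝ) ^ (s j + i) * z j) < t j)).card : ℝ) ≤
      ((range N).filter (fun i => ∀ j, tw b w (fun j => s j + i) z j < c' j)).card := by
    refine Nat.cast_le.2 (card_le_card fun i hi => ?_)
    rw [mem_filter] at hi ⊢
    refine ⟨hi.1, fun j => ?_⟩
    have h1 := hi.2 j
    have h2 := (hwd i j).1
    have h3 : (b j : ℝ) ^ w * Int.fract ((b j : ℝ) ^ (s j + i) * z j) < (b j : ℝ) ^ w * t j :=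
      mul_lt_mul_of_pos_left h1 (hbp j)
    have h4 : (tw b w (fun j => s j + i) z j : ℝ) < (c j : ℝ) + 1 := by linarith [hc2 j]
    have h5 : tw b w (fun j => s j + i) z j < c j + 1 := by exact_mod_cast h4
    exact lt_min h5 (tw_lt hb _ _ _ j)
  have hw1 := h c hcb
  have hw2 := h c' hcb'
  have hN : (0 : ℝ) ≤ N := Nat.cast_nonneg N
  have e1 := mul_le_mul_of_nonneg_left hp1 hN
  have e2 := mul_le_mul_of_nonneg_left hp2 hN
  rw [← abs_of_nonneg hN, ← abs_mul, abs_of_nonneg hN, mul_sub] at e1 e2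
  rw [abs_le] at hw1 hw2 e1 e2 ⊢
  constructor
  · linarith [hw1.1, e1.1]
  · linarith [hw2.2, e2.2]

/-- the indicator function of a box of words -/
def bx (c : Fin r → ℕ) (W : Fin r → ℕ) : ℝ := if ∀ j, W j < c j then 1 else 0

lemma bx_nonneg (c W : Fin r → ℕ) : 0 ≤ bx c W := by
  unfold bx; split_ifs <;> norm_num

lemma bx_le (c W : Fin r → ℕ) : bx c W ≤ 1 := by
  unfold bx; split_ifs <;> norm_num

lemma mn_bx {b : Fin r → ℕ} {w : ℕ} {c : Fin r → ℕ} (hc : ∀ j, c j ≤ b j ^ w) :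
    mnT b w (bx c) = ∏ j, ((c j : ℝ) / (b j : ℝ) ^ w) := by
  classical
  unfold mnT
  have h1 : ∑ W ∈ words b w, bx c W = ∏ j, (c j : ℝ) := by
    unfold bx
    rw [sum_boole]
    have h2 : (words b w).filter (fun W => ∀ j, W j < c j) =
        Fintype.piFinset fun j => range (c j) := by
      ext W
      rw [mem_filter, mem_words, Fintype.mem_piFinset]
      simp only [mem_range]
      constructor
      · exact fun h => h.2
      · exact fun h => ⟨fun j => (h j).trans_le (hc j), h⟩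
    rw [h2, Fintype.card_piFinset]
    simp only [card_range]
    push_cast
    rfl
  rw [h1, prod_div_distrib, prod_pow]
  push_cast
  rfl

lemma mn_mem {b : Fin r → ℕ} (hb : ∀ j, 1 ≤ b j) {w : ℕ} {c : Fin r → ℕ} (hc : ∀ j, c j ≤ b j ^ w) :
    0 ≤ mnT b w (bx c) ∧ mnT b w (bx c) ≤ 1 := by
  rw [mn_bx hc]
  have hbp : ∀ j, (0 : ℝ) < (b j : ℝ) ^ w := fun j => by
    have : (0 : ℝ) < b j := by exact_mod_cast hb j
    positivity
  constructor
  · exact prod_nonneg fun j _ => by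
      have := hbp j
      positivity
  · exact prod_le_one (fun j _ => by
      have := hbp j
      positivity) fun j _ => by
      rw [div_le_one (hbp j)]
      exact_mod_cast hc j

lemma cen_bx_le {b : Fin r → ℕ} (hb : ∀ j, 1 ≤ b j) {w : ℕ} {c : Fin r → ℕ}
    (hc : ∀ j, c j ≤ b j ^ w) (a : ℕ) : |cen (∏ j, b j) w (FM b w (bx c)) a| ≤ 1 := by
  unfold cen
  split_ifs with h
  · obtain ⟨W, hW, hW2⟩ := mix_surj hb w a h
    rw [← hW2, FM_mix hb w _ (mem_words.2 hW), mn_FM hb]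
    have h1 := mn_mem hb hc
    have h2 := bx_nonneg c W
    have h3 := bx_le c W
    rw [abs_le]
    constructor <;> linarith
  · simp

end Pool.Agent.Q270.SR
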